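import Pool.Agent.BEP.Stmts
import Pool.Agent.Helper82_BE01.WVC

/-!
# Squad BEP (MP_be01ff_an), row BAS: the basis of eigenfunctions
-/

set_option autoImplicit false

namespace Pool.Agent.BEP.H29

open Set Filter Topology MeasureTheory
open scoped InnerProductSpace ENNReal
open Pool.Agent Pool.Agent.BE01 Pool.Agent.Helper82_BE01

noncomputable section

/-- BAS. -/
theorem bas (emp : Pool.Agent.BEL.EmpStmt) (eig : Pool.Agent.BEL.EigStmt) : BasStmt := by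
  intro m Ω hm hΩ
  obtain ⟨ι, hE, hG⟩ := emp m Ω hm hΩ
  obtain ⟨b, e, om, hS⟩ := eig m Ω ι hm hΩ hE
  refine ⟨b, fun k => om k ^ 2, fun k => ?_⟩
  have hom : ∀ k, om k ≠ 0 := fun k => (hS.pos k).ne'
  have hee : ∀ j k, ⟪e j, e k⟫_ℝ = if j = k then 1 else 0 := fun j k =>
    (orthonormal_iff_ite.1 e.orthonormal) j k
  have hbb : ∀ j k, ⟪b j, b k⟫_ℝ = if j = k then 1 else 0 := fun j k =>
    (orthonormal_iff_ite.1 b.orthonormal) j k
  have hsr : ∀ (c : ℝ) (F G : VV Ω), ⟪F, c • G⟫_ℝ = c * ⟪F, G⟫_ℝ := by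
    intro c F G
    show ⟪(F : Lp (En m) 2 (mu Ω)), c • (G : Lp (En m) 2 (mu Ω))⟫_ℝ =
      c * ⟪(F : Lp (En m) 2 (mu Ω)), (G : Lp (En m) 2 (mu Ω))⟫_ℝ
    rw [real_inner_smul_right]
  have hsl : ∀ (c : ℝ) (F G : VV Ω), ⟪c • F, G⟫_ℝ = c * ⟪F, G⟫_ℝ := by
    intro c F G
    show ⟪c • (F : Lp (En m) 2 (mu Ω)), (G : Lp (En m) 2 (mu Ω))⟫_ℝ =
      c * ⟪(F : Lp (En m) 2 (mu Ω)), (G : Lp (En m) 2 (mu Ω))⟫_ℝ
    rw [real_inner_smul_left]
  have hιe : ι (om k • e k) = b k := by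
    apply b.repr.injective
    ext j
    rw [b.repr_apply_apply, b.repr_apply_apply, hS.rel j (om k • e k), hsr, hee, hbb]
    by_cases hjk : j = k
    · subst hjk
      rw [if_pos rfl, mul_one]
      exact inv_mul_cancel₀ (hom j)
    · rw [if_neg hjk, mul_zero, mul_zero]
  refine ⟨((om k • e k : VV Ω) : Lp (En m) 2 (mu Ω)), ?_, ?_⟩
  · rw [hG]
    exact ⟨(om k • e k).2, hιe.symm⟩
  · intro ψ hψ
    obtain ⟨G, hGψ⟩ := exists_grad hψ
    have hιG := hE ψ hψ G hGψ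
    have h1 : ∫ x, ⟪((om k • e k : VV Ω) : Lp (En m) 2 (mu Ω)) x, gradient ψ x⟫_ℝ ∂(mu Ω) =
        ⟪om k • e k, G⟫_ℝ := by
      have h2 : ⟪om k • e k, G⟫_ℝ =
          ⟪((om k • e k : VV Ω) : Lp (En m) 2 (mu Ω)), (G : Lp (En m) 2 (mu Ω))⟫_ℝ := rfl
      rw [h2, L2.inner_def]
      apply integral_congr_ae
      filter_upwards [hGψ] with x hx
      rw [hx]
    have h3 : ∫ x, (b k : Lp ℝ 2 (mu Ω)) x * ψ x ∂(mu Ω) = ⟪b k, ι G⟫_ℝ := by
      rw [L2.inner_def]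
      apply integral_congr_ae
      filter_upwards [hιG] with x hx
      rw [hx]
      simp [mul_comm]
    rw [h1, h3, hS.rel, hsl]
    have := hom k
    field_simp

end

end Pool.Agent.BEP.H29
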