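import Pool.Agent.BEP.Stmts
import Pool.Agent.Helper71_BEG.MGP

/-!
# Squad BEP (MP_be01ff_an), row SPC: scaling of the spectrum
-/

set_option autoImplicit false

namespace Pool.Agent.BEP.H29

open Set Filter Topology MeasureTheory
open scoped InnerProductSpace ENNReal
open Pool.Agent Pool.Agent.BE01 Pool.Agent.BEG

noncomputable section

variable {d : ℕ}

theorem sc_sc {R : ℝ} (hR : 0 < R) (Ω : Set (En d)) : Sc R⁻¹ (Sc R Ω) = Ω := by
  ext x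
  show R⁻¹ • (R⁻¹⁻¹ • x) ∈ Ω ↔ x ∈ Ω
  rw [inv_inv, smul_smul, inv_mul_cancel₀ hR.ne', one_smul]

theorem sc_qmp {R : ℝ} (hR : 0 < R) (Ω : Set (En d)) :
    Measure.QuasiMeasurePreserving (fun x : En d => R⁻¹ • x) (mu (Sc R Ω)) (mu Ω) := by
  have hm : Measurable (fun x : En d => R⁻¹ • x) := measurable_const_smul _
  refine ⟨hm, Measure.AbsolutelyContinuous.mk fun s hs h0 => ?_⟩
  rw [Measure.map_apply hm hs]
  unfold mu at h0 ⊢
  rw [Measure.restrict_apply hs] at h0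
  rw [Measure.restrict_apply (hm hs)]
  have h1 : (fun x : En d => R⁻¹ • x) ⁻¹' s ∩ Sc R Ω = (fun x : En d => R⁻¹ • x) ⁻¹' (s ∩ Ω) := rfl
  rw [h1]
  have h2 := Measure.addHaar_preimage_smul (μ := (volume : Measure (En d)))
    (r := R⁻¹) (inv_ne_zero hR.ne') (s ∩ Ω)
  rw [h0, mul_zero] at h2
  exact h2

theorem sc_syms {R : ℝ} (hR : 0 < R) {Ω : Set (En d)} {G : Set (En d ≃ₗᵢ[ℝ] En d)}
    (h : Syms Ω (li G)) : Syms (Sc R Ω) (li G) := by
  intro g hg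
  have hg2 : g.2 = 0 := hg.2
  have hgΩ := h g hg
  have hmv : ∀ x, mv g x = g.1 x := fun x => by
    show g.1 x + g.2 = g.1 x
    rw [hg2, add_zero]
  ext y
  constructor
  · rintro ⟨x, hx, rfl⟩
    have hx' : R⁻¹ • x ∈ Ω := hx
    show R⁻¹ • mv g x ∈ Ω
    rw [hmv, ← map_smul, ← hmv, ← hgΩ]
    exact ⟨_, hx', rfl⟩
  · intro hy
    have hy' : R⁻¹ • y ∈ Ω := hy
    rw [← hgΩ] at hy'
    obtain ⟨w, hw, hwy⟩ := hy'
    refine ⟨R • w, ?_, ?_⟩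
    · show R⁻¹ • (R • w) ∈ Ω
      rw [smul_smul, inv_mul_cancel₀ hR.ne', one_smul]
      exact hw
    · rw [hmv, map_smul, ← hmv, hwy, smul_smul, mul_inv_cancel₀ hR.ne', one_smul]

theorem sc_spec (sce : SceStmt) {R : ℝ} (hR : 0 < R) {Ω : Set (En d)}
    {G : Set (En d ≃ₗᵢ[ℝ] En d)} (hΩ : Dom Ω) (hS : Syms Ω (li G)) {l : ℝ} (h : l ∈ Sp Ω G) :
    l / R ^ 2 ∈ Sp (Sc R Ω) G := by
  obtain ⟨u, hI, h0, hE⟩ := h
  obtain ⟨hD, hsc⟩ := sce d Ω R l (fun x => u x) hR hΩ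
  have hE' := hsc (Helper70BE01Conv.eig_of hE)
  have hq := sc_qmp hR Ω
  have hm : MemLp (fun x : En d => u (R⁻¹ • x)) 2 (mu (Sc R Ω)) := by
    obtain ⟨F, hF, -⟩ := hE'
    exact hF.1
  have e1 := hm.coeFn_toLp
  refine ⟨hm.toLp _, ?_, ?_, Helper70BE01Conv.eig_to hE' e1⟩
  · intro g hg
    have hg2 : g.2 = 0 := hg.2
    obtain ⟨hmp, -⟩ := Pool.Agent.BEG.H71.mgp d (Sc R Ω) g hD.1 (sc_syms hR hS g hg)
    have h1 := hmp.quasiMeasurePreserving.ae_eq_comp e1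
    have h2 := hq.ae_eq_comp (hI g hg)
    filter_upwards [h1, h2, e1] with x hx1 hx2 hx3
    have h3 : R⁻¹ • mv g x = mv g (R⁻¹ • x) := by
      show R⁻¹ • (g.1 x + g.2) = g.1 (R⁻¹ • x) + g.2
      rw [hg2, add_zero, add_zero, map_smul]
    calc (hm.toLp _) (mv g x) = u (R⁻¹ • mv g x) := hx1
      _ = u (mv g (R⁻¹ • x)) := by rw [h3]
      _ = u (R⁻¹ • x) := hx2
      _ = (hm.toLp _) x := hx3.symm
  · intro hz
    apply h0
    have hq' := sc_qmp (inv_pos.2 hR) (Sc R Ω)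
    rw [sc_sc hR] at hq'
    have h1 : (fun x : En d => u (R⁻¹ • x)) =ᵐ[mu (Sc R Ω)] fun _ => (0 : ℝ) := by
      refine e1.symm.trans ?_
      rw [hz]
      exact Lp.coeFn_zero _ _ _
    have h2 := hq'.ae_eq_comp h1
    apply Lp.ext
    refine EventuallyEq.trans ?_ (Lp.coeFn_zero _ _ _).symm
    filter_upwards [h2] with y hy
    have h3 : R⁻¹ • (R⁻¹⁻¹ • y) = y := by
      rw [inv_inv, smul_smul, inv_mul_cancel₀ hR.ne', one_smul]
    have h4 : u (R⁻¹ • (R⁻¹⁻¹ • y)) = 0 := hy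
    rw [h3] at h4
    exact h4

/-- SPC. -/
theorem spc (sce : SceStmt) : SpcStmt := by
  intro d Ω G R hR hΩ hS
  refine ⟨sc_syms hR hS, fun l => ⟨fun h => ?_, fun h => ?_⟩⟩
  · have hD : Dom (Sc R Ω) := (sce d Ω R l (fun _ => 0) hR hΩ).1
    have h1 := sc_spec sce (inv_pos.2 hR) hD (sc_syms hR hS) h
    rw [sc_sc hR] at h1
    have h2 : l / R⁻¹ ^ 2 = R ^ 2 * l := by
      have := hR.ne'
      field_simp
    rwa [h2] at h1
  · have h1 := sc_spec sce hR hΩ hS h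
    have h2 : R ^ 2 * l / R ^ 2 = l := by
      have := hR.ne'
      field_simp
    rwa [h2] at h1

end

end Pool.Agent.BEP.H29
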